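import Pool.Agent.LibNE38.E6
import Pool.Agent.LibNC38.N3
import Pool.Agent.LibNT38.TK

set_option autoImplicit false

open LibNC38 LibNC27 Filter

namespace Pool.Agent.Results.MP_6157b4_gt.InfinitesimalRigidity

/-- Infinitesimal rigidity of compact locally symmetric spaces `Γ \ SL_n(ℝ) / SO(n)`, `n ≥ 3`, among
metrics without conjugate points.

`PD n` is the symmetric space (positive definite matrices of determinant one), `gF` its metric
`tr (p⁻¹ v p⁻¹ w)`; a form `κ : PD n → Fm n` is a field of bilinear forms (only the values on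
tangent vectors `IsTan` matter), `FmOK Γ κ`: continuous, symmetric, `Γ`-invariant; `C2F κ`: of class
`C²`; `nrm h` is the norm of a metric `h`, `dN (nrm h)` its distance; `Defo Γ κ h δ`: the `h k` are
`Γ`-invariant continuous metrics without conjugate points and `h k = gF + δ k (κ + o(1))` uniformly
with `δ k → 0+`; `Triv2 Γ κ`: `κ = c gF + L_Y gF` with a constant `c` and a `Γ`-invariant vector field
`Y` of class `C²` (`LieG` is the Lie derivative).

(1) `gF` has no conjugate points. (2) The first order term of a sequence of metrics without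
conjugate points converging to `gF` is trivial. (3) For every uniformly compact set `K` of
nontrivial invariant `C²` forms (e.g. the unit sphere of a finite dimensional space of forms
without nonzero trivial element) there is `ε > 0` such that all metrics `h` with
`|h - gF - δ κ| ≤ ε δ gF`, `κ ∈ K`, `0 < δ ≤ ε`, have conjugate points. -/
theorem result {n : ℕ} (hn : 3 ≤ n) (Γ : Subgroup (SL n)) (hd : Disc Γ) (hc : Coc Γ) :
    NoConj (dN (nrm (gF : PD n → Fm n))) ∧
    (∀ (κ : PD n → Fm n) (h : ℕ → PD n → Fm n) (δ : ℕ → ℝ), C2F κ → Defo Γ κ h δ → Triv2 Γ κ) ∧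
    (∀ K : Set (PD n → Fm n), (∀ κ ∈ K, FmOK Γ κ ∧ C2F κ ∧ ¬ Triv2 Γ κ) →
      (∀ κ : ℕ → PD n → Fm n, (∀ j, κ j ∈ K) → ∃ κ₀ ∈ K, ∃ s : ℕ → ℕ, StrictMono s ∧
        ∀ ε > 0, ∀ᶠ j in atTop, ∀ x v, IsTan x v →
          |κ (s j) x v v - κ₀ x v v| ≤ ε * gF x v v) →
      ∃ ε > 0, ∀ κ ∈ K, ∀ δ : ℝ, 0 < δ → δ ≤ ε → ∀ h : PD n → Fm n, FmOK Γ h →
        (∀ x v, IsTan x v → |h x v v - gF x v v - δ * κ x v v| ≤ ε * δ * gF x v v) →
        ¬ NoConj (dN (nrm h))) := by
  refine ⟨?_, fun κ h δ hκ hD => triv2_of_triv Γ κ hκ (defo_triv hn Γ hd hc κ h δ hD hκ),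
    fun K hK hcp => cpt_fam hn Γ hd hc K
      (fun κ hκ => ⟨(hK κ hκ).1, (hK κ hκ).2.1, fun hT =>
        (hK κ hκ).2.2 (triv2_of_triv Γ κ (hK κ hκ).2.1 hT)⟩) hcp⟩
  have h1 : dN (nrm (gF : PD n → Fm n)) = dr (fun _ => 1) := by
    funext p q
    rw [nrm_gF, dN, dr]
    congr 1
    ext l
    exact (connN_facts spd 1 1 gn_spd).2.2.2.2.2.2 p q l
  rw [h1]
  exact noConj_dg

end Pool.Agent.Results.MP_6157b4_gt.InfinitesimalRigidity
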