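import Pool.Agent.LibNC38.Main
import Pool.Agent.LibNC38.M1
import Pool.Agent.LibNC38.N3

set_option autoImplicit false

open LibNC38

namespace Pool.Agent.Results.MP_6157b4_gt.LocalConformalRigidity

/-- Local conformal rigidity of compact locally symmetric spaces `Γ \ SL_n(ℝ) / SO(n)`, `n ≥ 3`,
among metrics without conjugate points. `PD n` is the symmetric space (positive definite matrices
of determinant one with the metric `tr ((p⁻¹ dp)²)`), `dr ρ` the distance of the metric `ρ² g`.
(1) The symmetric metric itself has no conjugate points. (2) Conformal changes `e^(2 f) g` of small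
oscillation `δ` and Lipschitz constant at most `C δ` have conjugate points. (3) In particular
every nonconstant Lipschitz function `f` gives metrics `e^(2 t f) g` with conjugate points for all
small `t ≠ 0`. -/
theorem result {n : ℕ} (hn : 3 ≤ n) (Γ : Subgroup (SL n)) (hd : Disc Γ) (hc : Coc Γ) :
    NoConj (dr fun _ : PD n => (1 : ℝ)) ∧
    (∀ C : ℝ, ∃ ε > 0, ∀ f : PD n → ℝ, (∀ γ ∈ Γ, ∀ x, f (act γ x) = f x) →
      ∀ δ : ℝ, 0 < δ → δ ≤ ε → (∀ p q, f p - f q ≤ δ) → (∃ p q, f p - f q = δ) →
        (∀ p q, f p - f q ≤ C * δ * dg p q) →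
          ¬ NoConj (dr fun x => Real.exp (f x))) ∧
    (∀ f : PD n → ℝ, (∀ γ ∈ Γ, ∀ x, f (act γ x) = f x) → (∃ K, ∀ p q, f p - f q ≤ K * dg p q) →
      (∃ p q, f p ≠ f q) → ∃ ε > 0, ∀ t : ℝ, t ≠ 0 → |t| ≤ ε →
        ¬ NoConj (dr fun x => Real.exp (t * f x))) := by
  refine ⟨noConj_dg, fun C => local_conformal_rigidity hn Γ hd hc C, ?_⟩
  intro f hinv ⟨K, hK⟩ ⟨p0, q0, hne⟩
  obtain ⟨a, b, ha, hb⟩ := exists_osc Γ hc f K hK hinv
  obtain ⟨d0, d1, d2, d3⟩ := @dg_facts n
  set w := f a - f b with hw
  have hw0 : 0 < w := by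
    rcases lt_or_gt_of_ne hne with h | h
    · have := ha q0; have := hb p0; linarith
    · have := ha p0; have := hb q0; linarith
  obtain ⟨ε, hε, h⟩ := local_conformal_rigidity hn Γ hd hc (K / w)
  refine ⟨ε / w, by positivity, fun t ht htε => ?_⟩
  have htw : |t| * w ≤ ε := by
    rw [le_div_iff₀ hw0] at htε
    exact htε
  rcases lt_or_gt_of_ne ht with h' | h'
  · refine h (fun x => t * f x) (fun γ hγ x => by simp only [hinv γ hγ x]) (|t| * w)
      (mul_pos (abs_pos.2 ht) hw0) htw ?_ ⟨b, a, ?_⟩ ?_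
    · intro p q
      have h1 := ha q
      have h2 := hb p
      rw [abs_of_neg h']
      nlinarith
    · rw [abs_of_neg h', hw]; ring
    · intro p q
      have h1 := hK q p
      rw [d2 q p] at h1
      have h2 : K / w * (|t| * w) * dg p q = |t| * (K * dg p q) := by
        field_simp
      rw [h2, abs_of_neg h']
      nlinarith
  · refine h (fun x => t * f x) (fun γ hγ x => by simp only [hinv γ hγ x]) (|t| * w)
      (mul_pos (abs_pos.2 ht) hw0) htw ?_ ⟨a, b, ?_⟩ ?_
    · intro p q
      have h1 := ha p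
      have h2 := hb q
      rw [abs_of_pos h']
      nlinarith
    · rw [abs_of_pos h', hw]; ring
    · intro p q
      have h1 := hK p q
      have h2 : K / w * (|t| * w) * dg p q = |t| * (K * dg p q) := by
        field_simp
      rw [h2, abs_of_pos h']
      nlinarith

end Pool.Agent.Results.MP_6157b4_gt.LocalConformalRigidity

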