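import Pool.Agent.LibFL27.P14
import Pool.Agent.LibFL27.H12
import Pool.Agent.LibFL27.CH2
import Pool.Agent.LibFL27.QAll
import Pool.Agent.LibFL27.E2

set_option autoImplicit false
set_option maxSynthPendingDepth 3

open LibNC38 FL27 Filter Topology
open LibNC27 hiding Mt
open scoped Matrix.Norms.Elementwise ContDiff

namespace Pool.Agent.Results.MP_6157b4_gt.LocalRigidity

theorem bd_down {n : ℕ} (M : ℝ) : ∀ (k : ℕ) (F : Fn n), BD (k + 1) M F → BD k M F
  | 0, _, h => h.1
  | k + 1, _, h => ⟨h.1, fun x hx hx1 => by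
      obtain ⟨F', h1, h2⟩ := h.2 x hx hx1
      exact ⟨F', h1, bd_down M k F' h2⟩⟩

theorem tb_down {n : ℕ} (k : ℕ) (M : ℝ) (κ : PD n → Fm n) : ∀ j : ℕ, TB (k + j) M κ → TB k M κ
  | 0, h => h
  | j + 1, h => tb_down k M κ j fun v w hv hw h1 h2 => bd_down M (k + j) _ (h v w hv hw h1 h2)

theorem tb_le {n : ℕ} {k m : ℕ} (h : k ≤ m) {M : ℝ} {κ : PD n → Fm n} (hk : TB m M κ) :
    TB k M κ := by
  obtain ⟨j, rfl⟩ := Nat.exists_eq_add_of_le h
  exact tb_down k M κ j hk

/-- Local rigidity of the symmetric metric of compact locally symmetric spaces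
`Γ \ SL_n(ℝ) / SO(n)`, `n ≥ 3`, among all metrics without conjugate points.

`PD n` is the symmetric space `X` (positive definite matrices of determinant one), `gF` its metric
`tr (p⁻¹ v p⁻¹ w)`; forms `h : PD n → Fm n` are fields of bilinear forms (only the values on tangent
vectors `IsTan` matter). `SMet Γ h`: `h` is a smooth `Γ`-invariant Riemannian metric; `nrm h` is its norm,
`dN (nrm h)` its distance. `NoConj`: two distinct points are joined by at most one geodesic.
`TB m ε (h - h0)`: in the frame of the invariant vector fields the coefficients of `h - h0` and all their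
derivatives of order `≤ m` are at most `ε` (`C^m` distance). `Hom Γ h`: `φ^* h = c g` for a constant
`c > 0` and a smooth `Γ`-equivariant diffeomorphism `φ` of `X`, so `h` is a homothetic rescaling of `g`.

(1) Every metric without conjugate points which is `C^m` close to `g` is a homothetic rescaling of `g`.
(2) Every metric `h0` has a `C^m` neighbourhood in which either all metrics without conjugate points are
homothetic rescalings of `g`, or none: the rescalings of `g` form an open and closed subset of the space of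
metrics without conjugate points.
(3) If in a `C^m` continuous family of metrics without conjugate points, indexed by a connected space, one
metric is a homothetic rescaling of `g`, then all are.
(4) If `φ^* h = c g` as above, then `φ` commutes with every diffeomorphism `τ` of `X` that preserves `g` and
`h` and normalises `Γ`. Hence (1), (2), (3) also hold, with equivariant `φ`, for the quotients of `X` by
discrete cocompact groups of isometries of `X` that do not come from `SL_n(ℝ)`: take for `Γ` the subgroup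
of finite index of the isometries that come from `SL_n(ℝ)`. -/
theorem result {n : ℕ} (hn : 3 ≤ n) (Γ : Subgroup (SL n)) (hd : Disc Γ) (hc : Coc Γ) :
    ∃ m : ℕ,
      (∃ ε : ℝ, 0 < ε ∧ ∀ h : PD n → Fm n, SMet Γ h → NoConj (dN (nrm h)) →
        TB m ε (fun p => h p - gF p) → Hom Γ h) ∧
      (∀ h0 : PD n → Fm n, SMet Γ h0 → ∃ ε : ℝ, 0 < ε ∧ ∀ h h' : PD n → Fm n,
        SMet Γ h → SMet Γ h' → NoConj (dN (nrm h)) → NoConj (dN (nrm h')) →
        TB m ε (fun p => h p - h0 p) → TB m ε (fun p => h' p - h0 p) → (Hom Γ h ↔ Hom Γ h')) ∧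
      (∀ (T : Type) [TopologicalSpace T] [PreconnectedSpace T] (h : T → PD n → Fm n),
        (∀ t, SMet Γ (h t) ∧ NoConj (dN (nrm (h t)))) →
        (∀ t0 : T, ∀ ε > 0, ∀ᶠ t in 𝓝 t0, TB m ε (fun p => h t p - h t0 p)) →
        (∃ t, Hom Γ (h t)) → ∀ t, Hom Γ (h t)) ∧
      ∀ (h : PD n → Fm n) (φ : PD n → PD n) (c : ℝ), Dfm Γ φ → 0 < c →
        (∀ p v, IsTan p v → pul φ h p v v = c * gF p v v) →
        ∀ τ : PD n → PD n, SmX τ → (∃ σ : PD n → PD n, SmX σ ∧ (∀ p, σ (τ p) = p) ∧ ∀ p, τ (σ p) = p) →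
          (∀ p v, IsTan p v → pul τ gF p v v = gF p v v) →
          (∀ p v, IsTan p v → pul τ h p v v = h p v v) →
          (∀ γ ∈ Γ, ∃ γ' ∈ Γ, ∀ p, τ (act γ' p) = act γ (τ p)) → ∀ p, φ (τ p) = τ (φ p) := by
  have hH : HStat := H_main (g_main q_stat)
  obtain ⟨m0, ε0, hε0, h1⟩ := hH n hn Γ hd hc
  obtain ⟨m1, h2⟩ := hom_unif hH hn Γ hd hc
  refine ⟨max m0 m1, ⟨ε0, hε0, fun h hS hN hT => h1 h hS.sm
    ⟨hS.ok, hS.pos, tb_le (le_max_left _ _) hT, hN⟩⟩, fun h0 hS0 => ?_, ?_,
    fun h φ c hφ hc0 hp τ hτ hinv hg hh hN p =>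
      equi_iso hn Γ hd hc h φ c hφ hc0 hp τ hτ hinv hg hh hN p⟩
  · obtain ⟨ε, hε, h3⟩ := h2 h0 hS0
    refine ⟨ε, hε, fun h h' hS hS' hN hN' hT hT' => ⟨?_, ?_⟩⟩
    · exact h3 h h' hS hS' hN' (tb_le (le_max_right _ _) hT) (tb_le (le_max_right _ _) hT')
    · exact h3 h' h hS' hS hN (tb_le (le_max_right _ _) hT') (tb_le (le_max_right _ _) hT)
  · intro T _ _ h hS hT ⟨t1, ht1⟩ t2
    have key : ∀ x ∈ (Set.univ : Set T), ∀ᶠ y in 𝓝[Set.univ] x,
        (Hom Γ (h x) → Hom Γ (h y)) ∧ (Hom Γ (h y) → Hom Γ (h x)) := by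
      intro x _
      obtain ⟨ε, hε, h3⟩ := h2 (h x) (hS x).1
      have e1 := hT x ε hε
      rw [nhdsWithin_univ]
      have e2 : TB m1 ε (fun p => h x p - h x p) := tb_le (le_max_right _ _) e1.self_of_nhds
      filter_upwards [e1] with y hy
      have e3 : TB m1 ε (fun p => h y p - h x p) := tb_le (le_max_right _ _) hy
      exact ⟨h3 (h x) (h y) (hS x).1 (hS y).1 (hS y).2 e2 e3,
        h3 (h y) (h x) (hS y).1 (hS x).1 (hS x).2 e3 e2⟩
    exact isPreconnected_univ.induction₂' (fun x y => Hom Γ (h x) → Hom Γ (h y)) key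
      (fun x y z _ _ _ hxy hyz hx => hyz (hxy hx)) (Set.mem_univ t1) (Set.mem_univ t2) ht1

end Pool.Agent.Results.MP_6157b4_gt.LocalRigidity
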