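import Pool.Agent.LibNS38.P6

set_option autoImplicit false
set_option maxSynthPendingDepth 3

open LibNC38 Filter Topology
open scoped Matrix.Norms.Elementwise ContDiff

namespace Pool.Agent.Results.MP_6157b4_gt.PathRigidity

/-- the retraction of smooth tensors: coefficients are smooth functions of `A ∈ PU n` -/
theorem cmf_ret {n : ℕ} (κ : PD n → Fm n) (h : CmF ∞ κ) (v w : Mt n) :
    ContDiffOn ℝ ∞ (fun A : Mt n => κ (ret A) v w) (PU n) := by
  obtain ⟨U, κ', hU, hp, hs⟩ := h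
  have h1 : (fun A : Mt n => κ (ret A) v w) = fun A => κ' (ret A).1 v w := by
    funext A
    rw [(hp (ret A)).2]
  rw [h1]
  exact (hs v w).comp ret_smooth fun A _ => (hp (ret A)).1

/-- Rigidity of the symmetric metric of compact locally symmetric spaces `Γ \ SL_n(ℝ) / SO(n)`,
`n ≥ 3`, along paths of metrics without conjugate points.

`PD n` is the symmetric space `X` (positive definite matrices of determinant one), `gF` its metric
`tr (p⁻¹ v p⁻¹ w)`; forms `h : PD n → Fm n` are fields of bilinear forms (only the values on tangent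
vectors `IsTan` matter), `FmOK Γ h`: continuous, symmetric, `Γ`-invariant; `CmF ∞ h`: of class `C^∞`;
`nrm h` is the norm of a metric `h`, `dN (nrm h)` its distance. `LocSym h`: the metric `h` is locally
symmetric, i.e. the curvature tensor of its product with flat factors (`prodm h`, a metric on the open
set `PU n` of matrices with positive definite symmetric part, `PU n = X × ℝ × skew matrices`) is
parallel.

(1) Segments: for every smooth invariant metric `h` which is not locally symmetric the metrics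
`(1 - t) g + t h` have conjugate points for all small `t > 0`.
(2) Analytic paths `H_t = ∑ a_i(t) κ_i` of metrics, `0 ≤ t ≤ 1`, `H_0 = g`: if `H_t` has no conjugate
points for a sequence `t → 0+`, then all `H_t` are locally symmetric.
(3) Smooth paths: if `H_0 = g` and `H_t` has no conjugate points for a sequence `t → 0+`, then the path
is tangent to the homothety-isometry orbit of `g` to infinite order: for every `N` there are
equivariant diffeomorphisms `Φ t` and constants `c t`, smooth in `t`, with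
`Φ_t^* H_t = c_t (g + t^N K_t)` (`OrdN`). -/
theorem result {n : ℕ} (hn : 3 ≤ n) (Γ : Subgroup (SL n)) (hd : Disc Γ) (hc : Coc Γ) :
    (∀ h : PD n → Fm n, FmOK Γ h → CmF ∞ h → (∀ p v, IsTan p v → v ≠ 0 → 0 < h p v v) →
      ¬ LocSym h → ∃ ε > 0, ∀ t : ℝ, 0 < t → t < ε →
        ¬ NoConj (dN (nrm (fun p => (1 - t) • gF p + t • h p)))) ∧
    (∀ (D : ℕ) (a : Fin D → ℝ → ℝ) (κ : Fin D → PD n → Fm n) (J : Set ℝ) (T : ℕ → ℝ),
      (∀ i, FmOK Γ (κ i) ∧ CmF ∞ (κ i)) → IsOpen J → Set.Icc 0 1 ⊆ J →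
      (∀ i, AnalyticOnNhd ℝ (a i) J) → (∀ p v, IsTan p v → ∑ i, a i 0 * κ i p v v = gF p v v) →
      (∀ t ∈ Set.Icc (0 : ℝ) 1, ∀ p v, IsTan p v → v ≠ 0 → 0 < ∑ i, a i t * κ i p v v) →
      (∀ j, 0 < T j) → Tendsto T atTop (𝓝 0) →
      (∀ j, NoConj (dN (nrm (fun p => ∑ i, a i (T j) • κ i p)))) →
      ∀ t ∈ Set.Icc (0 : ℝ) 1, LocSym (fun p => ∑ i, a i t • κ i p)) ∧
    (∀ (H : ℝ → PD n → Fm n) (ε : ℝ) (T : ℕ → ℝ), 0 < ε → (∀ t, FmOK Γ (H t)) → SmF ε H →
      (∀ p v, IsTan p v → H 0 p v v = gF p v v) → (∀ j, 0 < T j) → Tendsto T atTop (𝓝 0) →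
      (∀ j, NoConj (dN (nrm (H (T j))))) → ∀ N : ℕ, 1 ≤ N → OrdN Γ H N) := by
  have h2 : ∀ (D : ℕ) (a : Fin D → ℝ → ℝ) (κ : Fin D → PD n → Fm n) (J : Set ℝ) (T : ℕ → ℝ),
      (∀ i, FmOK Γ (κ i) ∧ CmF ∞ (κ i)) → IsOpen J → Set.Icc 0 1 ⊆ J →
      (∀ i, AnalyticOnNhd ℝ (a i) J) → (∀ p v, IsTan p v → ∑ i, a i 0 * κ i p v v = gF p v v) →
      (∀ t ∈ Set.Icc (0 : ℝ) 1, ∀ p v, IsTan p v → v ≠ 0 → 0 < ∑ i, a i t * κ i p v v) →
      (∀ j, 0 < T j) → Tendsto T atTop (𝓝 0) →
      (∀ j, NoConj (dN (nrm (fun p => ∑ i, a i (T j) • κ i p)))) →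
      ∀ t ∈ Set.Icc (0 : ℝ) 1, LocSym (fun p => ∑ i, a i t • κ i p) := by
    intro D a κ J T hκ hJ hI ha h0 hpos hT hT0 hnc
    exact path_locsym hn Γ hd hc a κ (fun i => (hκ i).1) (fun i => cmf_ret (κ i) (hκ i).2) J hJ hI ha
      h0 hpos T hT hT0 hnc
  refine ⟨?_, h2, fun H ε T hε hH hs h0 hT hT0 hnc =>
    ord_all hn Γ hd hc H hH T hT hT0 hnc ε hε hs h0⟩
  intro h hh hs hp hL
  by_contra hcon
  push Not at hcon
  have hsel : ∀ j : ℕ, ∃ t : ℝ, 0 < t ∧ t < 1 / ((j : ℝ) + 1) ∧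
      NoConj (dN (nrm (fun p => (1 - t) • gF p + t • h p))) := by
    intro j
    obtain ⟨t, h1, h3, h4⟩ := hcon (1 / ((j : ℝ) + 1)) (by positivity)
    exact ⟨t, h1, h3, h4⟩
  choose T hT hT1 hnc using hsel
  have hT0 : Tendsto T atTop (𝓝 0) :=
    squeeze_zero (fun j => (hT j).le) (fun j => (hT1 j).le) tendsto_one_div_add_atTop_nhds_zero_nat
  have hg : FmOK Γ (gF : PD n → Fm n) := fmOK_gF Γ
  have hmx := (prodm_gF (n := n) (by omega)).1
  have hgs : CmF ∞ (gF : PD n → Fm n) :=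
    ⟨PU n, fun A => gF (ret A), PU_open, fun p => ⟨mem_PU p, by show gF (ret p.1) = gF p; rw [ret_self]⟩, hmx.smooth⟩
  have hsum : ∀ (t : ℝ) (p : PD n), ∑ i : Fin 2, (![fun t : ℝ => 1 - t, fun t => t] i) t •
      (![(gF : PD n → Fm n), h] i) p = (1 - t) • gF p + t • h p := by
    intro t p
    simp [Fin.sum_univ_two]
  have hsum2 : ∀ (t : ℝ) (p : PD n) (v : Mt n), ∑ i : Fin 2, (![fun t : ℝ => 1 - t, fun t => t] i) t *
      (![(gF : PD n → Fm n), h] i) p v v = (1 - t) * gF p v v + t * h p v v := by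
    intro t p v
    simp [Fin.sum_univ_two]
  have hfin := h2 2 ![fun t : ℝ => 1 - t, fun t => t] ![(gF : PD n → Fm n), h] Set.univ T ?_ isOpen_univ
    (Set.subset_univ _) ?_ ?_ ?_ hT hT0 ?_ 1 ⟨zero_le_one, le_rfl⟩
  · apply hL
    have e : (fun p => ∑ i : Fin 2, (![fun t : ℝ => 1 - t, fun t => t] i) 1 •
        (![(gF : PD n → Fm n), h] i) p) = h := by
      funext p
      rw [hsum]
      simp
    rw [e] at hfin
    exact hfin
  · intro i
    fin_cases i
    · exact ⟨hg, hgs⟩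
    · exact ⟨hh, hs⟩
  · intro i
    fin_cases i
    · exact fun t _ => analyticAt_const.sub analyticAt_id
    · exact fun t _ => analyticAt_id
  · intro p v _
    rw [hsum2]
    ring
  · intro t ht p v hv hv0
    rw [hsum2]
    have h5 : 0 < gF p v v := hmx.pos p v hv hv0
    have h6 := hp p v hv hv0
    rcases eq_or_lt_of_le ht.1 with h7 | h7
    · rw [← h7]; linarith
    · have h8 : 0 ≤ (1 - t) * gF p v v := mul_nonneg (by linarith [ht.2]) h5.le
      have h9 : 0 < t * h p v v := mul_pos h7 h6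
      linarith
  · intro j
    have e : (fun p => ∑ i : Fin 2, (![fun t : ℝ => 1 - t, fun t => t] i) (T j) •
        (![(gF : PD n → Fm n), h] i) p) = fun p => (1 - T j) • gF p + T j • h p := by
      funext p
      rw [hsum]
    rw [e]
    exact hnc j

end Pool.Agent.Results.MP_6157b4_gt.PathRigidity
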